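import Pool.Agent.Helper33.QB.Frame

/-!
# Project QB, module P2: the book-keeping function

The conditions with letters below a given ordinal form a small set, hence so do the bounded
names, and there is a function on the ordinals which takes every bounded name as its value
unboundedly often.
-/

set_option autoImplicit false

namespace Pool.Agent.Helper33.QB

open Set Pool.Agent.Helper33.HMG Pool.Agent.Helper32.HB

theorem small_cnd (Ω : Type) (α j : Ordinal.{0}) :
    Small.{0} {p : Cnd Ω Ordinal.{0} | Basic α p ∧ ∀ l ∈ p.S, l < j} := by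
  let T : Type 1 := Set Ω × Set (Set Ω) × (Ω → Iio α) × Set (Iio j) × (Iio j → Ω → Ω)
  have hT : Small.{0} T := inferInstance
  let φ : {p : Cnd Ω Ordinal.{0} | Basic α p ∧ ∀ l ∈ p.S, l < j} → T := fun p =>
    (p.1.Y, p.1.R, fun x => ⟨p.1.r x, p.2.1.ra x⟩, {l | l.1 ∈ p.1.S}, fun l => p.1.h l.1)
  refine small_of_injective (β := T) (f := φ) ?_
  rintro ⟨p, hp, hpj⟩ ⟨q, hq, hqj⟩ h
  have h1 : p.Y = q.Y := congrArg (fun t : T => t.1) h
  have h2 : p.R = q.R := congrArg (fun t : T => t.2.1) h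
  have h3 : p.r = q.r := by
    funext x
    exact congrArg (fun t : T => (t.2.2.1 x).1) h
  have h4 : ({l : Iio j | l.1 ∈ p.S} : Set (Iio j)) = {l | l.1 ∈ q.S} :=
    congrArg (fun t : T => t.2.2.2.1) h
  have h5 : ∀ l : Iio j, p.h l.1 = q.h l.1 := fun l =>
    congrArg (fun t : T => t.2.2.2.2 l) h
  have h6 : p.S = q.S := by
    ext l
    constructor
    · intro hl
      have : (⟨l, hpj l hl⟩ : Iio j) ∈ {l : Iio j | l.1 ∈ p.S} := hl
      rw [h4] at this
      exact this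
    · intro hl
      have : (⟨l, hqj l hl⟩ : Iio j) ∈ {l : Iio j | l.1 ∈ q.S} := hl
      rw [← h4] at this
      exact this
  have h7 : p.h = q.h := by
    funext l
    by_cases hl : l ∈ p.S
    · exact h5 ⟨l, hpj l hl⟩
    · rw [hp.h0 l hl, hq.h0 l (h6 ▸ hl)]
  exact Subtype.ext (Cnd.ext h1 h2 h3 h6 h7)

theorem small_nmD (Ω : Type) (α j : Ordinal.{0}) :
    Small.{0} {d : NmD Ω Ordinal.{0} | (Basic α d.c ∧ ∀ l ∈ d.c.S, l < j) ∧
      ∀ t ∈ d.f, Basic α t.1 ∧ ∀ l ∈ t.1.S, l < j} := by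
  let A : Set (Cnd Ω Ordinal.{0}) := {p | Basic α p ∧ ∀ l ∈ p.S, l < j}
  have hA : Small.{0} A := small_cnd Ω α j
  let T : Type 1 := A × Set (A × Ω × Bool)
  have hT : Small.{0} T := inferInstance
  let φ : {d : NmD Ω Ordinal.{0} | (Basic α d.c ∧ ∀ l ∈ d.c.S, l < j) ∧
      ∀ t ∈ d.f, Basic α t.1 ∧ ∀ l ∈ t.1.S, l < j} → T := fun d =>
    (⟨d.1.c, d.2.1⟩, {z | (z.1.1, z.2.1, z.2.2) ∈ d.1.f})
  refine small_of_injective (β := T) (f := φ) ?_
  rintro ⟨⟨c, f⟩, hc, hf⟩ ⟨⟨c', f'⟩, hc', hf'⟩ h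
  have h1 : c = c' := congrArg (fun t : T => t.1.1) h
  have h2 : ({z : A × Ω × Bool | (z.1.1, z.2.1, z.2.2) ∈ f} : Set (A × Ω × Bool)) =
      {z | (z.1.1, z.2.1, z.2.2) ∈ f'} := congrArg (fun t : T => t.2) h
  have h3 : f = f' := by
    ext ⟨p, x, e⟩
    constructor
    · intro hz
      have : ((⟨p, hf _ hz⟩, x, e) : A × Ω × Bool) ∈
          {z : A × Ω × Bool | (z.1.1, z.2.1, z.2.2) ∈ f} := hz
      rw [h2] at this
      exact this
    · intro hz
      have : ((⟨p, hf' _ hz⟩, x, e) : A × Ω × Bool) ∈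
          {z : A × Ω × Bool | (z.1.1, z.2.1, z.2.2) ∈ f'} := hz
      rw [← h2] at this
      exact this
  subst h1
  subst h3
  rfl

/-- A small type is listed by the ordinals. -/
theorem exists_listing {X : Type 1} [Nonempty X] (D : Set X) [Small.{0} D] :
    ∃ f : Ordinal.{0} → X, ∀ d ∈ D, ∃ k, f k = d := by
  classical
  let g : D → Ordinal.{0} := fun d =>
    Ordinal.typein (WellOrderingRel (α := Shrink.{0} D)) (equivShrink D d)
  have hg : Function.Injective g := fun a b h =>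
    (equivShrink D).injective (Ordinal.typein_injective _ h)
  refine ⟨Function.extend g Subtype.val (fun _ => Classical.arbitrary X), fun d hd => ?_⟩
  exact ⟨g ⟨d, hd⟩, hg.extend_apply _ _ _⟩

theorem exists_triples : Nonempty (Ordinal.{0} ≃ Ordinal.{0} × Ordinal.{0} × Ordinal.{0}) := by
  have hinf : Cardinal.aleph0 ≤ Cardinal.mk Ordinal.{0} := by
    rw [← Cardinal.infinite_iff]
    exact Infinite.of_injective (fun n : ℕ => (n : Ordinal.{0})) Nat.cast_injective
  refine Cardinal.eq.1 ?_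
  rw [Cardinal.mk_prod, Cardinal.mk_prod]
  simp only [Cardinal.lift_id]
  rw [Cardinal.mul_eq_self hinf, Cardinal.mul_eq_self hinf]

theorem exists_book (Ω : Type) (α : Ordinal.{0}) :
    ∃ b : Ordinal.{0} → NmD Ω Ordinal.{0}, Book α b := by
  classical
  have : Nonempty (NmD Ω Ordinal.{0}) := ⟨⟨⟨∅, ∅, fun _ => 0, ∅, fun _ => id⟩, ∅⟩⟩
  have hf : ∀ j : Ordinal.{0}, ∃ f : Ordinal.{0} → NmD Ω Ordinal.{0},
      ∀ d ∈ {d : NmD Ω Ordinal.{0} | (Basic α d.c ∧ ∀ l ∈ d.c.S, l < j) ∧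
        ∀ t ∈ d.f, Basic α t.1 ∧ ∀ l ∈ t.1.S, l < j}, ∃ k, f k = d := by
    intro j
    have := small_nmD Ω α j
    exact exists_listing _
  choose f hf using hf
  obtain ⟨e⟩ := exists_triples
  refine ⟨fun i => f (e i).1 (e i).2.1, ?_⟩
  intro d j hd hdj hdf j'
  obtain ⟨k, hk⟩ := hf j d ⟨⟨hd, hdj⟩, hdf⟩
  by_contra hcon
  push Not at hcon
  have hlt : ∀ l : Ordinal.{0}, e.symm (j, k, l) < j' := by
    intro l
    by_contra h
    refine hcon (e.symm (j, k, l)) (not_lt.1 h) ?_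
    simpa using hk
  have hsm : Small.{0} (Iio j') := inferInstance
  refine not_small_ordinal.{0} ?_
  refine small_of_injective (β := Iio j')
    (f := fun l : Ordinal.{0} => (⟨e.symm (j, k, l), hlt l⟩ : Iio j')) ?_
  intro l l' h
  have h1 : e.symm (j, k, l) = e.symm (j, k, l') := congrArg Subtype.val h
  have h2 := e.symm.injective h1
  exact congrArg (fun t => t.2.2) h2

end Pool.Agent.Helper33.QB
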